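import Mathlib
import Pool.Agent.Lib.helper9.BorsukUlam

set_option autoImplicit false

namespace Pool.Agent.H.MP_1501ba_gt

open Set Filter Topology

theorem mix {r p q : ℝ} (hr : |r| ≤ 1) (hp : 0 < p) (hq : 0 < q) :
    0 < (1 + r) / 2 * p + (1 - r) / 2 * q := by
  rw [abs_le] at hr
  rcases le_total p q with h | h <;> nlinarith [hr.1, hr.2]

theorem pm (F G : ℝ × ℝ → ℝ) (hF : Continuous F) (hG : Continuous G)
    (h1 : ∀ s, F (-1, s) < 0 ∧ 0 < F (1, s)) (h2 : ∀ s, G (s, -1) < 0 ∧ 0 < G (s, 1)) :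
    ∃ z : ℝ × ℝ, |z.1| ≤ 1 ∧ F z = 0 ∧ G z = 0 := by
  have b : ∀ z : (ℝ × ℝ) × ℝ, ‖z‖ = 1 → |z.1.1| ≤ 1 ∧ |z.2| ≤ 1 := fun z hz =>
    ⟨(norm_fst_le z.1).trans ((norm_fst_le z).trans hz.le), (norm_snd_le z).trans hz.le⟩
  obtain ⟨⟨⟨x, y⟩, r⟩, hz, h0⟩ := Pool.Agent.Lib.helper9.BorsukUlam.borsuk_ulam
    (E := (ℝ × ℝ) × ℝ) (F := ℝ × ℝ) (Or.inr (by simp))
    (fun z => ((1 + z.2) / 2 * F z.1 - (1 - z.2) / 2 * F (-z.1),
      (1 + z.2) / 2 * G z.1 - (1 - z.2) / 2 * G (-z.1))) (Continuous.continuousOn (by fun_prop))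
    (fun z _ => by
      simp only [Prod.fst_neg, Prod.snd_neg, neg_neg, sub_neg_eq_add, ← sub_eq_add_neg,
        Prod.neg_mk, neg_sub])
  obtain ⟨bx, br⟩ := b _ hz
  simp only [Prod.mk_eq_zero, Prod.neg_mk] at h0 bx br
  obtain ⟨h3, h4⟩ := h0
  have hx : |x| ≠ 1 := by
    intro h
    rcases (abs_eq zero_le_one).1 h with rfl | rfl
    · have := mix br (h1 y).2 (neg_pos.2 (h1 (-y)).1)
      linarith
    · have := mix br (neg_pos.2 (h1 y).1) (h1 (-y)).2
      rw [neg_neg] at h3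
      linarith
  have hy : |y| ≠ 1 := by
    intro h
    rcases (abs_eq zero_le_one).1 h with rfl | rfl
    · have := mix br (h2 x).2 (neg_pos.2 (h2 (-x)).1)
      linarith
    · have := mix br (neg_pos.2 (h2 x).1) (h2 (-x)).2
      rw [neg_neg] at h4
      linarith
  have hr : |r| = 1 := by
    simp only [Prod.norm_def, Real.norm_eq_abs] at hz
    rcases max_choice (max |x| |y|) |r| with h | h
    · rw [h] at hz
      rcases max_choice |x| |y| with h | h
      · exact absurd (h ▸ hz) hx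
      · exact absurd (h ▸ hz) hy
    · exact h ▸ hz
  rcases (abs_eq zero_le_one).1 hr with rfl | rfl
  · exact ⟨(x, y), bx, by linarith, by linarith⟩
  · exact ⟨(-x, -y), by rwa [abs_neg], by linarith, by linarith⟩

theorem nested {X : Type*} [TopologicalSpace X] [T2Space X] [CompactSpace X] (S : ℕ → Set X)
    (h1 : Antitone S) (h2 : ∀ n, IsClosed (S n)) (h3 : ∀ n, IsPreconnected (S n)) :
    IsPreconnected (⋂ n, S n) := by
  refine (isPreconnected_iff_subset_of_fully_disjoint_closed (isClosed_iInter h2)).2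
    fun u v hu hv hs hd => ?_
  obtain ⟨U, V, hU, hV, h4, h5, h6⟩ := normal_separation hu hv hd
  obtain ⟨n, hn⟩ := (hU.union hV).isClosed_compl.isCompact.elim_directed_family_closed S h2
    (eq_empty_of_forall_notMem fun x hx => hx.1 (union_subset_union h4 h5 (hs hx.2)))
    (directed_of_isDirected_le h1)
  have h7 : S n ⊆ U ∪ V := fun x hx => by_contra fun h => (hn ▸ ⟨h, hx⟩ : x ∈ (∅ : Set X))
  rcases (h3 n).subset_or_subset hU hV h6 h7 with h | h
  · exact Or.inl fun x hx => (hs hx).resolve_right fun h8 =>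
      Set.disjoint_left.1 h6 (h (mem_iInter.1 hx n)) (h5 h8)
  · exact Or.inr fun x hx => (hs hx).resolve_left fun h8 =>
      Set.disjoint_left.1 h6 (h4 h8) (h (mem_iInter.1 hx n))

theorem mono {X Y : Type*} [TopologicalSpace X] [TopologicalSpace Y] [T2Space Y] {D : Set X}
    (hD : IsCompact D) {f : X → Y} (hf : Continuous f) (h1 : ∀ t, (D ∩ f ⁻¹' {t}).Nonempty)
    (h2 : ∀ t, IsPreconnected (D ∩ f ⁻¹' {t})) {J : Set Y} (h3 : IsClosed J)
    (h4 : IsConnected J) : IsPreconnected (D ∩ f ⁻¹' J) := by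
  have := isCompact_iff_compactSpace.1 hD
  have e : ∀ J : Set Y, Subtype.val '' ((fun x : D => f x) ⁻¹' J) = D ∩ f ⁻¹' J := fun J =>
    Subtype.image_preimage_coe D (f ⁻¹' J)
  have hc : Continuous fun x : D => f x := hf.comp continuous_subtype_val
  have hq : IsQuotientMap fun x : D => f x := hc.isClosedMap.isQuotientMap hc fun t => by
    obtain ⟨x, hx, h⟩ := h1 t
    exact ⟨⟨x, hx⟩, h⟩
  rw [← e]
  refine (hq.isCoinducing.isConnected_preimage_of_isClosed (fun t => ⟨?_, ?_⟩) h3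
    h4).2.image _ continuous_subtype_val.continuousOn
  · obtain ⟨x, hx, h⟩ := h1 t
    exact ⟨⟨x, hx⟩, h⟩
  · exact IsInducing.subtypeVal.isPreconnected_image.1 (e _ ▸ h2 t)

theorem cutwire {X : Type*} [TopologicalSpace X] [T4Space X] {Z A B : Set X} (hZ : IsCompact Z)
    (hA : IsClosed A) (hB : IsClosed B) (hd : Disjoint A B)
    (h : ∀ N ⊆ Z, IsCompact N → IsConnected N → (N ∩ A).Nonempty → ¬ (N ∩ B).Nonempty) :
    ∃ g : C(X, ℝ), EqOn g 0 A ∧ EqOn g 1 B ∧ ∀ z ∈ Z, g z = 0 ∨ g z = 1 := by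
  have := isCompact_iff_compactSpace.1 hZ
  have c : Continuous (ConnectedComponents.mk : Z → _) := ConnectedComponents.continuous_coe
  have c1 : ∀ {A : Set X}, IsClosed A → IsClosed (ConnectedComponents.mk '' (Subtype.val ⁻¹' A :
    Set Z)) := fun hA => ((hA.preimage continuous_subtype_val).isCompact.image c).isClosed
  obtain ⟨C, h1, h2, h3⟩ := exists_clopen_of_closed_subset_open (c1 hA) (c1 hB).isOpen_compl (by
    rintro _ ⟨a, ha, rfl⟩ ⟨b, hb, e⟩
    refine h (Subtype.val '' connectedComponent a) (Subtype.coe_image_subset _ _)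
      (isClosed_connectedComponent.isCompact.image continuous_subtype_val)
      (isConnected_connectedComponent.image _ continuous_subtype_val.continuousOn)
      ⟨a, ⟨a, mem_connectedComponent, rfl⟩, ha⟩ ⟨b, ⟨b, ?_, rfl⟩, hb⟩
    exact ConnectedComponents.coe_eq_coe'.1 e)
  have h4 := h1.preimage c
  have c2 : ∀ {S : Set Z}, IsClosed S → IsClosed (Subtype.val '' S) := fun hS =>
    (hS.isCompact.image continuous_subtype_val).isClosed
  obtain ⟨g, g1, g2, -⟩ := exists_continuous_zero_one_of_isClosed (hA.union (c2 h4.1))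
    (hB.union (c2 h4.compl.1)) (by
      rw [Set.disjoint_left]
      rintro x (hx | ⟨y, hy, rfl⟩) (hx' | ⟨z, hz, e⟩)
      · exact Set.disjoint_left.1 hd hx hx'
      · exact hz (h2 ⟨z, by rw [← e] at hx; exact hx, rfl⟩)
      · exact h3 hy ⟨y, hx', rfl⟩
      · exact hz (Subtype.ext e ▸ hy))
  refine ⟨g, fun x hx => g1 (Or.inl hx), fun x hx => g2 (Or.inl hx), fun z hz => ?_⟩
  by_cases h5 : (⟨z, hz⟩ : Z) ∈ ConnectedComponents.mk ⁻¹' C
  · exact Or.inl (g1 (Or.inr ⟨_, h5, rfl⟩))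
  · exact Or.inr (g2 (Or.inr ⟨_, h5, rfl⟩))

section
variable {X Y : Type*} (H : ℕ → X → Y → X)

def Φ : ℕ → ℕ → X → Y → X
  | 0, _, x, _ => x
  | j + 1, k, x, t => H k (Φ j (k + 1) x t) t

def R (n : ℕ) (ξ : ℕ → X) (t : Y) : ℕ → X := fun k => Φ H (n - k) k (ξ (k + (n - k))) t

theorem R_rel (n : ℕ) (ξ : ℕ → X) (t : Y) {k : ℕ} (hk : k < n) :
    R H n ξ t k = H k (R H n ξ t (k + 1)) t := by
  have e : n - k = (n - (k + 1)) + 1 := by omega
  have e2 : k + (n - (k + 1) + 1) = k + 1 + (n - (k + 1)) := by omega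
  simp only [R]
  rw [e, e2, Φ]

theorem R_top (n : ℕ) (ξ : ℕ → X) (t : Y) {k : ℕ} (hk : n ≤ k) : R H n ξ t k = ξ k := by
  simp only [R, Nat.sub_eq_zero_of_le hk, Φ, Nat.add_zero]

theorem R_self (n : ℕ) (θ : ℕ → X) (t : Y) (h : ∀ k < n, θ k = H k (θ (k + 1)) t) :
    R H n θ t = θ := by
  have h1 : ∀ j k, n ≤ k + j → R H n θ t k = θ k := by
    intro j
    induction j with
    | zero => exact fun k hk => R_top H n θ t hk
    | succ j ih =>
      intro k hk
      by_cases h2 : k < n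
      · rw [R_rel H n θ t h2, ih (k + 1) (by omega), ← h k h2]
      · exact R_top H n θ t (not_lt.1 h2)
  exact funext fun k => h1 n k (by omega)

theorem R_cont [TopologicalSpace X] [TopologicalSpace Y]
    (hH : ∀ k, Continuous fun p : X × Y => H k p.1 p.2) (n : ℕ) :
    Continuous fun p : (ℕ → X) × Y => R H n p.1 p.2 := by
  have h1 : ∀ j k, Continuous fun p : X × Y => Φ H j k p.1 p.2 := by
    intro j
    induction j with
    | zero => exact fun k => continuous_fst
    | succ j ih => exact fun k => (hH k).comp ((ih (k + 1)).prodMk continuous_snd)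
  exact continuous_pi fun k => (h1 (n - k) k).comp
    (f := fun p : (ℕ → X) × Y => (p.1 (k + (n - k)), p.2))
    (((continuous_apply _).comp continuous_fst).prodMk continuous_snd)

end

end Pool.Agent.H.MP_1501ba_gt
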