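import Mathlib
import Pool.Agent.H.MP_1501ba_gt.A

set_option autoImplicit false

namespace Pool.Agent.H.MP_1501ba_gt

open Set Filter Topology unitInterval

abbrev T : Type := UnitAddCircle

noncomputable def w (x : T) : ℝ := 8 * ‖x‖ - 2

theorem w_le (x : T) : -2 ≤ w x ∧ w x ≤ 2 := by
  have h1 := AddCircle.norm_le_half_period (1 : ℝ) (x := x) one_ne_zero
  have h2 := norm_nonneg x
  rw [abs_one] at h1
  unfold w
  constructor <;> linarith

theorem w_cont : Continuous w := by unfold w; fun_prop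

theorem w_int (k : ℤ) : w ((k : ℝ) : T) = -2 := by
  simp [w, UnitAddCircle.norm_eq]

theorem w_half (k : ℤ) : w (((k : ℝ) - 1 / 2 : ℝ) : T) = 2 := by
  have h : round ((k : ℝ) - 1 / 2) = k := by
    rw [round_eq]; simp
  rw [w, UnitAddCircle.norm_eq, h]
  norm_num [abs_of_pos]

noncomputable def lam : ℕ → ℝ
  | 0 => 10
  | n + 1 => (n + 1) * 9 ^ (n + 1) * lam n

theorem lam_step (n : ℕ) (h : 0 ≤ lam n) : (n + 1) * lam n ≤ lam (n + 1) := by
  have h1 : (1 : ℝ) ≤ 9 ^ (n + 1) := one_le_pow₀ (by norm_num)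
  have h2 : (0 : ℝ) ≤ (n + 1) * lam n := by positivity
  rw [lam]
  nlinarith

theorem lam_ge (n : ℕ) : 10 ≤ lam n := by
  induction n with
  | zero => exact le_rfl
  | succ n ih =>
    have := lam_step n (by linarith)
    have h2 : (0 : ℝ) ≤ n := Nat.cast_nonneg n
    nlinarith

theorem lam_mono : Monotone lam := monotone_nat_of_le_succ fun n => by
  have h1 := lam_ge n
  have := lam_step n (by linarith)
  have h2 : (0 : ℝ) ≤ n := Nat.cast_nonneg n
  nlinarith

noncomputable def H (n : ℕ) (x : T) (t : I) : T := x + (w (x + ((lam n * t : ℝ) : T)) : ℝ)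

noncomputable def G (n : ℕ) (y : ℝ) (t : I) : ℝ := y + w ((y : T) + ((lam n * t : ℝ) : T))

theorem cc : Continuous fun y : ℝ => (y : T) := AddCircle.continuous_mk' 1

theorem H_cont (n : ℕ) : Continuous fun p : T × I => H n p.1 p.2 :=
  continuous_fst.add (cc.comp (w_cont.comp (continuous_fst.add (cc.comp (by fun_prop)))))

theorem G_cont (n : ℕ) : Continuous fun p : ℝ × I => G n p.1 p.2 :=
  continuous_fst.add (w_cont.comp ((cc.comp continuous_fst).add (cc.comp (by fun_prop))))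

theorem G_H (n : ℕ) (y : ℝ) (t : I) : ((G n y t : ℝ) : T) = H n y t := rfl

abbrev E : Type := (ℕ → T) × I

def M : Set E := {p | ∀ n, p.1 n = H n (p.1 (n + 1)) p.2}

theorem M_closed : IsClosed M := by
  have : M = ⋂ n, {p : E | p.1 n = H n (p.1 (n + 1)) p.2} := by ext p; simp [M]
  rw [this]
  exact isClosed_iInter fun n => isClosed_eq (by fun_prop) ((H_cont n).comp
    (f := fun p : E => (p.1 (n + 1), p.2)) (by fun_prop))

theorem fib_conn (t : I) : IsPreconnected (M ∩ Prod.snd ⁻¹' {t}) := by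
  have h1 : M ∩ Prod.snd ⁻¹' {t} =
      ⋂ n, {p : E | p.2 = t ∧ ∀ k < n, p.1 k = H k (p.1 (k + 1)) p.2} := by
    ext p
    simp only [M, mem_inter_iff, mem_ofPred_eq, mem_preimage, mem_singleton_iff, mem_iInter]
    exact ⟨fun h n => ⟨h.2, fun k _ => h.1 k⟩, fun h => ⟨fun n => (h (n + 1)).2 n n.lt_succ_self,
      (h 0).1⟩⟩
  have h2 : ∀ n, {p : E | p.2 = t ∧ ∀ k < n, p.1 k = H k (p.1 (k + 1)) p.2} =
      range fun ξ : ℕ → T => (R H n ξ t, t) := fun n => by
    ext p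
    refine ⟨fun h => ⟨p.1, Prod.ext (R_self H n _ t (h.1 ▸ h.2)) h.1.symm⟩, ?_⟩
    rintro ⟨ξ, rfl⟩
    exact ⟨rfl, fun k hk => R_rel H n ξ t hk⟩
  have h3 : ∀ n, Continuous fun ξ : ℕ → T => (R H n ξ t, t) := fun n =>
    ((R_cont H H_cont n).comp (f := fun ξ : ℕ → T => (ξ, t)) (by fun_prop)).prodMk continuous_const
  rw [h1]
  refine nested _ (fun a b hab p hp => ⟨hp.1, fun k hk => hp.2 k (hk.trans_le hab)⟩)
    (fun n => ?_) fun n => ?_
  · rw [h2]; exact (isCompact_range (h3 n)).isClosed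
  · rw [h2]; exact isPreconnected_range (h3 n)

theorem fib_ne (t : I) (y : ℝ) : ∃ p ∈ M, p.2 = t ∧ p.1 0 = (y : T) := by
  have h1 : ∀ n y, ∃ z, G n z t = y := fun n y => by
    have hc : Continuous fun z => G n z t :=
      (G_cont n).comp (f := fun z : ℝ => (z, t)) (by fun_prop)
    refine intermediate_value_univ (y - 2) (y + 2) hc ⟨?_, ?_⟩
    · have := (w_le (((y - 2 : ℝ) : T) + ((lam n * t : ℝ) : T))).2
      simp only [G]; linarith
    · have := (w_le (((y + 2 : ℝ) : T) + ((lam n * t : ℝ) : T))).1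
      simp only [G]; linarith
  choose F hF using h1
  obtain ⟨u, h0, hu⟩ : ∃ u : ℕ → ℝ, u 0 = y ∧ ∀ n, u (n + 1) = F n (u n) :=
    ⟨fun n => Nat.rec y F n, rfl, fun _ => rfl⟩
  refine ⟨(fun n => (u n : T), t), fun n => ?_, rfl, by simp only [h0]⟩
  simp only
  rw [← G_H, hu, hF]

theorem key {D : Set E} (hD : IsClosed D) (hM : D ⊆ M) (h1 : ∀ t, (D ∩ Prod.snd ⁻¹' {t}).Nonempty)
    (h2 : ∀ t, IsPreconnected (D ∩ Prod.snd ⁻¹' {t})) (n : ℕ) (x : T) (t : I) :
    ∃ d ∈ D, d.1 n = x ∧ |(d.2 : ℝ) - t| ≤ 10 / lam n := by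
  by_contra h
  push Not at h
  have l1 := lam_ge n
  have l0 : 0 < lam n := by linarith
  have l2 : 5 / lam n ≤ 1 / 2 := by rw [div_le_iff₀ l0]; linarith
  have l3 : 0 < 5 / lam n := by positivity
  have l4 : 10 / lam n = 2 * (5 / lam n) := by ring
  have l5 : lam n * (5 / lam n) = 5 := by field_simp
  generalize 5 / lam n = η at l2 l3 l4 l5
  rw [l4] at h
  obtain ⟨t0, a1, a2, a3, a4⟩ : ∃ t0 : ℝ, 0 ≤ t0 ∧ t0 + 2 * η ≤ 1 ∧ t0 ≤ t ∧ t ≤ t0 + 2 * η := by
    rcases le_total (t : ℝ) (1 - 2 * η) with h3 | h3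
    · exact ⟨t, t.2.1, by linarith, le_rfl, by linarith⟩
    · exact ⟨1 - 2 * η, by linarith, by linarith, h3, by linarith [t.2.2]⟩
  let s0 : I := ⟨t0, a1, by linarith⟩
  let s1 : I := ⟨t0 + η, by linarith, by linarith⟩
  let s2 : I := ⟨t0 + 2 * η, by linarith, a2⟩
  obtain ⟨a, rfl⟩ := QuotientAddGroup.mk_surjective x
  let c : E → ℝ := fun d => AddCircle.equivIoc 1 a (d.1 n)
  let v : E → ℝ := fun d => c d + lam n * d.2 - w (d.1 (n + 1) + ((lam n * d.2 : ℝ) : T))
  have hc : ∀ d, a < c d ∧ c d ≤ a + 1 := fun d => (AddCircle.equivIoc 1 a (d.1 n)).2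
  have hv : ∀ d ∈ D, v d + w (v d : T) = c d + lam n * d.2 := fun d hd => by
    have : ((v d : ℝ) : T) = d.1 (n + 1) + ((lam n * d.2 : ℝ) : T) := by
      simp only [v, c, AddCircle.coe_sub, AddCircle.coe_add, AddCircle.coe_equivIoc]
      rw [hM hd n, H]
      abel
    rw [this]; simp only [v]; ring
  have hcont : ∀ d ∈ D, t0 ≤ d.2 → (d.2 : ℝ) ≤ t0 + 2 * η → ContinuousAt v d := fun d hd b1 b2 => by
    have h3 : d.1 n ≠ (a : T) := fun e => (h d hd e).not_ge (abs_le.2 ⟨by linarith, by linarith⟩)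
    have h4 : ContinuousAt c d := continuous_subtype_val.continuousAt.comp
      ((AddCircle.continuousAt_equivIoc 1 a h3).comp (f := fun d : E => d.1 n)
        (Continuous.continuousAt (by fun_prop)))
    refine (h4.add (Continuous.continuousAt (by fun_prop))).sub (Continuous.continuousAt ?_)
    exact w_cont.comp (Continuous.add (by fun_prop) (cc.comp (by fun_prop)))
  have p1 := mono hD.isCompact continuous_snd h1 h2 (J := Icc s0 s1) isClosed_Icc
    (isConnected_Icc (show t0 ≤ t0 + η by linarith))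
  have p2 := mono hD.isCompact continuous_snd h1 h2 (J := Icc s1 s2) isClosed_Icc
    (isConnected_Icc (show t0 + η ≤ t0 + 2 * η by linarith))
  obtain ⟨d0, m0, e0⟩ := h1 s0
  obtain ⟨d1, m1, e1⟩ := h1 s1
  obtain ⟨d2, m2, e2⟩ := h1 s2
  have f0 : d0.2 = s0 := e0
  have f1 : d1.2 = s1 := e1
  have f2 : d2.2 = s2 := e2
  have k1 := Int.floor_le (lam n * (t0 + η) + a + 2)
  have k2 := Int.lt_floor_add_one (lam n * (t0 + η) + a + 2)
  generalize ⌊lam n * (t0 + η) + a + 2⌋ = k at k1 k2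
  have q1 : v d1 < k - 1 / 2 := by
    by_contra h3
    obtain ⟨d, ⟨m, b1, b2⟩, h4⟩ := p1.intermediate_value (a := d0) (b := d1) (f := v)
      ⟨m0, f0.ge, f0.le.trans (show t0 ≤ t0 + η by linarith)⟩
      ⟨m1, le_trans (show t0 ≤ t0 + η by linarith) f1.ge, f1.le⟩
      (fun d hd => (hcont d hd.1 hd.2.1 (le_trans hd.2.2
        (show t0 + η ≤ t0 + 2 * η by linarith))).continuousWithinAt) ⟨(by
        have h5 := (hc d0).2
        have h6 := (w_le (d0.1 (n + 1) + ((lam n * d0.2 : ℝ) : T))).1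
        have h7 : (d0.2 : ℝ) = t0 := by rw [f0]
        simp only [v]
        rw [h7] at h6 ⊢
        nlinarith : v d0 ≤ k - 1 / 2), not_lt.1 h3⟩
    have h5 := hv d m
    rw [h4, w_half] at h5
    have h6 := (hc d).2
    have h7 : (d.2 : ℝ) ≤ t0 + η := b2
    nlinarith
  obtain ⟨d, ⟨m, b1, b2⟩, h4⟩ := p2.intermediate_value (a := d1) (b := d2) (f := v)
    ⟨m1, f1.ge, f1.le.trans (show t0 + η ≤ t0 + 2 * η by linarith)⟩
    ⟨m2, le_trans (show t0 + η ≤ t0 + 2 * η by linarith) f2.ge, f2.le⟩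
    (fun d hd => (hcont d hd.1 (le_trans (show t0 ≤ t0 + η by linarith) hd.2.1)
      hd.2.2).continuousWithinAt) ⟨(by linarith : v d1 ≤ k), (by
      have h5 := (hc d2).1
      have h6 := (w_le (d2.1 (n + 1) + ((lam n * d2.2 : ℝ) : T))).2
      have h7 : (d2.2 : ℝ) = t0 + 2 * η := by rw [f2]
      simp only [v]
      rw [h7] at h6 ⊢
      nlinarith : (k : ℝ) ≤ v d2)⟩
  have h5 := hv d m
  rw [h4, w_int] at h5
  have h6 := (hc d).1
  have h7 : t0 + η ≤ (d.2 : ℝ) := b1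
  nlinarith

theorem lip (n : ℕ) (x y : T) (s t : I) :
    ‖H n x s - H n y t‖ ≤ 9 * ‖x - y‖ + 8 * (lam n * |(s : ℝ) - t|) := by
  have h1 : H n x s - H n y t = (x - y) + ((w (x + ((lam n * s : ℝ) : T)) -
      w (y + ((lam n * t : ℝ) : T)) : ℝ) : T) := by
    simp only [H, AddCircle.coe_sub]; abel
  have h2 : ∀ r : ℝ, ‖(r : T)‖ ≤ |r| := fun r => QuotientAddGroup.norm_mk_le_norm
  have h3 := abs_norm_sub_norm_le (x + ((lam n * s : ℝ) : T)) (y + ((lam n * t : ℝ) : T))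
  have h4 : x + ((lam n * s : ℝ) : T) - (y + ((lam n * t : ℝ) : T)) =
      (x - y) + ((lam n * (s - t) : ℝ) : T) := by
    simp only [mul_sub, AddCircle.coe_sub]; abel
  have h5 := norm_add_le (x - y) ((lam n * (s - t) : ℝ) : T)
  have h6 := h2 (lam n * (s - t))
  rw [abs_mul, abs_of_pos (show 0 < lam n by linarith [lam_ge n])] at h6
  rw [h4] at h3
  rw [h1]
  refine (norm_add_le _ _).trans ?_
  have h7 := h2 (w (x + ((lam n * s : ℝ) : T)) - w (y + ((lam n * t : ℝ) : T)))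
  have h8 : w (x + ((lam n * s : ℝ) : T)) - w (y + ((lam n * t : ℝ) : T)) =
      8 * (‖x + ((lam n * s : ℝ) : T)‖ - ‖y + ((lam n * t : ℝ) : T)‖) := by simp only [w]; ring
  rw [h8] at h7 ⊢
  rw [abs_mul, abs_of_pos (show (0 : ℝ) < 8 by norm_num)] at h7
  linarith

theorem close {p d : E} (hp : p ∈ M) (hd : d ∈ M) (n : ℕ) (h1 : d.1 (n + 1) = p.1 (n + 1))
    (h2 : |(d.2 : ℝ) - p.2| ≤ 10 / lam (n + 1)) (k : ℕ) (hk : k ≤ n + 1) :
    ‖d.1 k - p.1 k‖ ≤ 10 / (n + 1) := by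
  have l1 := lam_ge n
  have a0 := abs_nonneg ((d.2 : ℝ) - p.2)
  have h3 : ∀ j k, k + j = n + 1 →
      ‖d.1 k - p.1 k‖ + lam n * |(d.2 : ℝ) - p.2| ≤ 9 ^ j * (lam n * |(d.2 : ℝ) - p.2|) := by
    intro j
    induction j with
    | zero => intro k hk; simp [show k = n + 1 from hk, h1]
    | succ j ih =>
      intro k hk
      have h4 := ih (k + 1) (by omega)
      have h5 := lip k (d.1 (k + 1)) (p.1 (k + 1)) d.2 p.2
      have h6 := mul_le_mul_of_nonneg_right (lam_mono (show k ≤ n by omega)) a0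
      rw [← hd k, ← hp k] at h5
      rw [pow_succ]
      linarith
  have h4 := h3 (n + 1 - k) k (by omega)
  have h5 : (9 : ℝ) ^ (n + 1 - k) ≤ 9 ^ (n + 1) := pow_le_pow_right₀ (by norm_num) (by omega)
  have h6 : 0 ≤ lam n * |(d.2 : ℝ) - p.2| := by positivity
  have h7 := mul_le_mul_of_nonneg_right h5 h6
  have h8 : 9 ^ (n + 1) * (lam n * |(d.2 : ℝ) - p.2|) ≤ 9 ^ (n + 1) * (lam n * (10 / lam (n + 1))) :=
    by gcongr
  have h9 : 9 ^ (n + 1) * (lam n * (10 / lam (n + 1))) = 10 / (n + 1) := by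
    rw [lam]; field_simp
  linarith

theorem minimal {D : Set E} (hD : IsClosed D) (hM : D ⊆ M)
    (h1 : ∀ t, (D ∩ Prod.snd ⁻¹' {t}).Nonempty)
    (h2 : ∀ t, IsPreconnected (D ∩ Prod.snd ⁻¹' {t})) : M ⊆ D := by
  intro p hp
  choose d m e1 e2 using fun n => key hD hM h1 h2 (n + 1) (p.1 (n + 1)) p.2
  have h0 : Tendsto (fun n : ℕ => (10 : ℝ) / (n + 1)) atTop (𝓝 0) :=
    tendsto_const_nhds.div_atTop (tendsto_natCast_atTop_atTop.atTop_add tendsto_const_nhds)
  refine hD.mem_of_tendsto (f := d) (b := atTop) ?_ (Eventually.of_forall m)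
  refine (Prod.tendsto_iff _ _).2 ⟨tendsto_pi_nhds.2 fun k => ?_, ?_⟩
  · rw [tendsto_iff_norm_sub_tendsto_zero]
    refine squeeze_zero' (Eventually.of_forall fun _ => norm_nonneg _) ?_ h0
    filter_upwards [eventually_ge_atTop k] with n hn
    exact close hp (hM (m n)) n (e1 n) (e2 n) k (by omega)
  · rw [tendsto_iff_dist_tendsto_zero]
    refine squeeze_zero (fun _ => dist_nonneg) (fun n => (e2 n).trans ?_) h0
    have h3 := lam_ge n
    have h4 := lam_step n (by linarith)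
    have h5 : (0 : ℝ) < n + 1 := by positivity
    exact div_le_div_of_nonneg_left (by norm_num) h5 (by nlinarith)

theorem cross : ∃ N ⊆ M, IsCompact N ∧ IsConnected N ∧ (∀ t, ∃ p ∈ N, p.2 = t) ∧
    ∀ p ∈ N, p.1 0 = 0 := by
  let W : ℕ → Set ((ℕ → ℝ) × I) := fun n => ((univ.pi fun k : ℕ => Icc (-(2 * k + 1) : ℝ)
    (2 * k + 1)) ×ˢ univ) ∩ ({p | p.1 0 = 0} ∩ ⋂ k < n, {p | p.1 k = G k (p.1 (k + 1)) p.2})
  have hW : ∀ n, IsCompact (W n) := fun n =>
    ((isCompact_univ_pi fun _ => isCompact_Icc).prod isCompact_univ).inter_right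
      ((isClosed_eq (by fun_prop) continuous_const).inter (isClosed_biInter fun k _ =>
        isClosed_eq (by fun_prop) ((G_cont k).comp
          (f := fun p : (ℕ → ℝ) × I => (p.1 (k + 1), p.2)) (by fun_prop))))
  have hZ : IsCompact (⋂ n, W n) :=
    (hW 0).of_isClosed_subset (isClosed_iInter fun n => (hW n).isClosed) (iInter_subset _ 0)
  by_contra h
  obtain ⟨g, g0, g1, g2⟩ := cutwire hZ (A := Prod.snd ⁻¹' {0}) (B := Prod.snd ⁻¹' {1})
    (isClosed_singleton.preimage continuous_snd) (isClosed_singleton.preimage continuous_snd)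
    (Disjoint.preimage _ (by simp)) fun N h1 h2 h3 ⟨a, ha, ha'⟩ ⟨b, hb, hb'⟩ => by
      have hc : Continuous fun p : (ℕ → ℝ) × I => ((fun k => (p.1 k : T), p.2) : E) :=
        (continuous_pi fun k => cc.comp (by fun_prop)).prodMk continuous_snd
      refine h ⟨_, ?_, h2.image hc, h3.image _ hc.continuousOn, fun t => ?_, ?_⟩
      · rintro _ ⟨p, hp, rfl⟩ n
        have := mem_iInter₂.1 (mem_iInter.1 (h1 hp) (n + 1)).2.2 n n.lt_succ_self
        simp only
        rw [← G_H, ← this]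
      · obtain ⟨p, hp, e⟩ := h3.2.intermediate_value ha hb continuous_snd.continuousOn
          (show t ∈ Icc a.2 b.2 by rw [ha', hb']; exact ⟨t.2.1, t.2.2⟩)
        exact ⟨_, ⟨p, hp, rfl⟩, e⟩
      · rintro _ ⟨p, hp, rfl⟩
        have : p.1 0 = 0 := (mem_iInter.1 (h1 hp) 0).2.1
        simp only [this]; rfl
  have h3 : ∀ n, (W n ∩ {p | g p = 1 / 2}).Nonempty := fun n => by
    let τ : ℝ → I := fun s => projIcc 0 1 zero_le_one ((s + 1) / 2)
    have c1 : Continuous τ := continuous_projIcc.comp (by fun_prop)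
    let P : ℝ × ℝ → (ℕ → ℝ) × I := fun z => (R G n (fun _ => (2 * n + 1) * z.1) (τ z.2), τ z.2)
    have c2 : Continuous P := ((R_cont G G_cont n).comp
      (f := fun z : ℝ × ℝ => (fun _ => (2 * n + 1) * z.1, τ z.2)) (by fun_prop)).prodMk
        (by fun_prop)
    have b1 : ∀ z k, k < n → |(P z).1 k - (P z).1 (k + 1)| ≤ 2 := fun z k hk => by
      simp only [P]
      rw [R_rel G n _ _ hk, G, add_sub_cancel_left]
      exact abs_le.2 (w_le _)
    have b2 : ∀ z k, k ≤ n → |(P z).1 0 - (P z).1 k| ≤ 2 * k := fun z k => by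
      induction k with
      | zero => simp
      | succ k ih =>
        intro hk
        have h4 := abs_sub_le ((P z).1 0) ((P z).1 k) ((P z).1 (k + 1))
        have h5 := b1 z k hk
        have h6 := ih (by omega)
        push_cast
        linarith
    have b3 : ∀ z k, n ≤ k → (P z).1 k = (2 * n + 1) * z.1 := fun z k hk =>
      R_top G n (fun _ => (2 * n + 1) * z.1) (τ z.2) hk
    obtain ⟨z, h4, h5, h6⟩ := pm (fun z => (P z).1 0) (fun z => g (P z) - 1 / 2) (by fun_prop)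
      (by fun_prop) (fun s => by
        have h4 := abs_le.1 (b2 (-1, s) n le_rfl)
        have h5 := abs_le.1 (b2 (1, s) n le_rfl)
        rw [b3 _ n le_rfl] at h4 h5
        constructor <;> linarith [h4.2, h5.1]) fun s => by
        rw [g0 (x := P (s, -1)) (by simp [P, τ]), g1 (x := P (s, 1)) (by simp [P, τ])]
        norm_num
    refine ⟨P z, ⟨⟨fun k _ => abs_le.1 ?_, trivial⟩, h5, mem_iInter₂.2 fun k hk =>
      R_rel G n (fun _ => (2 * n + 1) * z.1) (τ z.2) hk⟩, sub_eq_zero.1 h6⟩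
    rcases le_total k n with h7 | h7
    · have := b2 z k h7
      rw [h5, zero_sub, abs_neg] at this
      linarith
    · have h8 : (n : ℝ) ≤ k := Nat.cast_le.2 h7
      have h9 : (0 : ℝ) < 2 * n + 1 := by positivity
      rw [b3 z k h7, abs_mul, abs_of_pos h9]
      nlinarith
  have hg : IsClosed {p | g p = 1 / 2} := isClosed_eq g.continuous continuous_const
  obtain ⟨p, hp⟩ := IsCompact.nonempty_iInter_of_sequence_nonempty_isCompact_isClosed
    (fun n => W n ∩ {p | g p = 1 / 2}) (fun n p hp => ⟨⟨hp.1.1, hp.1.2.1, mem_iInter₂.2 fun k hk =>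
      mem_iInter₂.1 hp.1.2.2 k (Nat.lt_succ_of_lt hk)⟩, hp.2⟩) h3 ((hW 0).inter_right hg)
      fun n => (hW n).isClosed.inter hg
  have h4 : g p = 1 / 2 := (mem_iInter.1 hp 0).2
  rcases g2 p (mem_iInter.2 fun n => (mem_iInter.1 hp n).1) with h5 | h5 <;>
    rw [h5] at h4 <;> norm_num at h4

end Pool.Agent.H.MP_1501ba_gt
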